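import Pool.Agent.Results.MP_ba6ea3_co.TwoSidedBounds

/-!
# MP_74dbbd_co, Q1: `h_s^Δ(m) ≤ h(1,m)`

The refined shifted Heller constants. All definitions are written out in this file; the work is
in the starting file `MP_ba6ea3_co.TwoSidedBounds`.
-/

set_option autoImplicit false

namespace Pool.Agent.Results.MP_74dbbd_co.RefinedBelow

/-- totally 1-submodular: every square submatrix of every size has determinant in `[-1,1]` -/
def IsTotally1Submodular {m n : ℕ} (M : Matrix (Fin m) (Fin n) ℝ) : Prop :=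
  ∀ (k : ℕ) (r : Fin k → Fin m) (c : Fin k → Fin n), |(M.submatrix r c).det| ≤ 1

/-- `n` is the number of columns of a matrix `A` with entries in `{-1,0,1}` and pairwise distinct
columns such that `t + A` is totally 1-submodular for some nonzero `t` in `[0,1)^m` with entries
in `(1/Δ)ℤ` -/
def IsRefinedSize (Δ m n : ℕ) : Prop :=
  ∃ (t : Fin m → ℝ) (A : Matrix (Fin m) (Fin n) ℝ),
    (∀ i, t i ∈ Set.Ico (0 : ℝ) 1 ∧ ∃ a : ℤ, t i = (a : ℝ) / (Δ : ℝ)) ∧ t ≠ 0 ∧
    (∀ i j, A i j ∈ ({-1, 0, 1} : Set ℝ)) ∧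
    (∀ j j', (∀ i, A i j = A i j') → j = j') ∧
    IsTotally1Submodular (Matrix.of fun i j => t i + A i j)

/-- `n` is the number of columns of an integer matrix with `m` rows and pairwise distinct columns,
whose largest absolute value of an `m × m` minor is `1` -/
def IsHellerSize (m n : ℕ) : Prop :=
  ∃ A : Matrix (Fin m) (Fin n) ℤ, (∀ j j', (∀ i, A i j = A i j') → j = j') ∧
    (∃ s : Fin m → Fin n, |(A.submatrix id s).det| = 1) ∧
    ∀ s : Fin m → Fin n, |(A.submatrix id s).det| ≤ 1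

theorem isHellerSize_iff (m n : ℕ) :
    IsHellerSize m n ↔ n ∈ Pool.Agent.W580.SH.HellerSizes m := by
  constructor
  · rintro ⟨A, h1, ⟨s, hs⟩, h3⟩
    refine ⟨A, fun j j' h => h1 j j' fun i => congrFun h i, ⟨s, fun h0 => ?_⟩, h3⟩
    rw [h0] at hs
    simp at hs
  · rintro ⟨A, h1, ⟨s, hs⟩, h3⟩
    refine ⟨A, fun j j' h => h1 (funext h), ⟨s, ?_⟩, h3⟩
    have ha := h3 s
    have hb : 1 ≤ |(A.submatrix id s).det| := Int.one_le_abs hs
    omega

theorem refined_sub {Δ m n : ℕ} (h : IsRefinedSize Δ m n) :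
    n ∈ Pool.Agent.W580.SH.ShiftedSizes m := by
  obtain ⟨t, A, h1, h2, h3, h4, h5⟩ := h
  refine ⟨t, A, fun i => ⟨(h1 i).1.1, (h1 i).1.2⟩, h2, fun i j => ?_, fun j j' h => ?_, h5⟩
  · simpa using h3 i j
  · exact h4 j j' fun i => congrFun h i

theorem zero_size {Δ m : ℕ} (hΔ : 2 ≤ Δ) (hm : 1 ≤ m) : IsRefinedSize Δ m 0 := by
  have hΔ0 : (0 : ℝ) < Δ := by
    have : 0 < Δ := by omega
    exact_mod_cast this
  have hΔ1 : (1 : ℝ) < Δ := by
    have : 1 < Δ := by omega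
    exact_mod_cast this
  refine ⟨fun _ => 1 / (Δ : ℝ), fun _ j => j.elim0, fun i => ⟨⟨by positivity, ?_⟩, 1, by simp⟩,
    fun h => ?_, fun _ j => j.elim0, fun j => j.elim0, ?_⟩
  · rw [div_lt_one hΔ0]
    exact hΔ1
  · have := congrFun h ⟨0, hm⟩
    simp only [Pi.zero_apply, one_div, inv_eq_zero] at this
    exact hΔ0.ne' this
  · intro k r c
    rcases k with _ | k
    · simp
    · exact (c 0).elim0

/-- **Answer to Q1 (affirmative, strict form).** Let `m ≥ 1` and `Δ ≥ 2`. The set of admissible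
numbers of columns for `h_s^Δ(m)` is nonempty and finite, so that it has a greatest element
`h_s^Δ(m)`; the set for `h(1,m)` has a greatest element `h(1,m)`, which is `m² + m + 1`; and
`h_s^Δ(m) ≤ m² + m < h(1,m)`. -/
theorem result (m Δ : ℕ) (hm : 1 ≤ m) (hΔ : 2 ≤ Δ) :
    ∃ h h₁ : ℕ, IsGreatest {n | IsRefinedSize Δ m n} h ∧ IsGreatest {n | IsHellerSize m n} h₁ ∧
      h₁ = m ^ 2 + m + 1 ∧ h ≤ m ^ 2 + m ∧ h < h₁ := by
  obtain ⟨h1, h2, h3, -, -, h6, -, -⟩ :=
    Pool.Agent.Results.MP_ba6ea3_co.TwoSidedBounds.result.1 m hm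
  have hle : ∀ n, IsRefinedSize Δ m n → n ≤ m ^ 2 + m := fun n hn =>
    (h1.2 (refined_sub hn)).trans h6
  have hb : BddAbove {n | IsRefinedSize Δ m n} := ⟨m ^ 2 + m, hle⟩
  have hne : {n | IsRefinedSize Δ m n}.Nonempty := ⟨0, zero_size hΔ hm⟩
  have hmem : sSup {n | IsRefinedSize Δ m n} ∈ {n | IsRefinedSize Δ m n} := Nat.sSup_mem hne hb
  refine ⟨sSup {n | IsRefinedSize Δ m n}, Pool.Agent.W580.SH.hellerConst m,
    ⟨hmem, fun n hn => le_csSup hb hn⟩, ?_, h3, hle _ hmem, ?_⟩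
  · have e : {n | IsHellerSize m n} = Pool.Agent.W580.SH.HellerSizes m := by
      ext n
      exact isHellerSize_iff m n
    rw [e]
    exact h2
  · have := hle _ hmem
    rw [h3]
    omega

end Pool.Agent.Results.MP_74dbbd_co.RefinedBelow
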